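import Mathlib

/-!
# MP_e13ffb_co, Q1: the statement is false already in dimension 4

`S` is a set of six vertices of the cube `{0,1}^4`, split into
`A = {0000, 0111, 1011}` and `B = {0001, 0010, 1100}`.  The only affine dependency is
`3*0000 + 0111 + 1011 = 2*0001 + 2*0010 + 1100`, with coefficient sum `5 > 4` on each side.
Hence `A, B` satisfy the 4-parallelogram condition, while Condition H fails.
-/

namespace Pool.Agent.Results.MP_e13ffb_co.CubeCircuit

open scoped BigOperators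

/-- The real vector of an integer vector. -/
def toR {d : ℕ} (x : Fin d → ℤ) : Fin d → ℝ := fun i => (x i : ℝ)

/-- The integral neighbourhood `N(x) = {y ∈ ℤ^d : |x_i - y_i| < 1 for all i}`. -/
def nbhd {d : ℕ} (x : Fin d → ℝ) : Set (Fin d → ℤ) := {y | ∀ i, |x i - (y i : ℝ)| < 1}

/-- `S` is integrally convex: every `x ∈ conv(S)` lies in `conv(S ∩ N(x))`. -/
def IntegrallyConvex {d : ℕ} (S : Set (Fin d → ℤ)) : Prop :=
  ∀ x ∈ convexHull ℝ (toR '' S), x ∈ convexHull ℝ (toR '' (S ∩ nbhd x))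

/-- The `k`-parallelogram condition for `A, B`. -/
def Parallelogram {d : ℕ} (k : ℕ) (A B : Set (Fin d → ℤ)) : Prop :=
  ∀ m : ℕ, 1 ≤ m → m ≤ k → ∀ a b : Fin m → (Fin d → ℤ),
    (∀ i, a i ∈ A) → (∀ i, b i ∈ B) → ∑ i, a i ≠ ∑ i, b i

/-- The affine subspace `P` of the affine subspace `L` is the zero set in `L` of a
nonzero affine functional `f` (so `L \ P` has the two components `{f > 0}` and `{f < 0}`),
and the points of `S = A ∪ B` in `{f > 0}` lie in `A`, those in `{f < 0}` lie in `B`. -/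
def Separates {d : ℕ} (P L : AffineSubspace ℝ (Fin d → ℝ)) (A B : Set (Fin d → ℤ)) : Prop :=
  ∃ f : (Fin d → ℝ) →ᵃ[ℝ] ℝ, (∃ x ∈ L, f x ≠ 0) ∧ (∀ x, x ∈ P ↔ x ∈ L ∧ f x = 0) ∧
    (∀ s ∈ A ∪ B, toR s ∈ L → 0 < f (toR s) → s ∈ A) ∧
    (∀ s ∈ A ∪ B, toR s ∈ L → f (toR s) < 0 → s ∈ B)

/-- Condition H. -/
def ConditionH {d : ℕ} (A B : Set (Fin d → ℤ)) : Prop :=
  ∃ k ≤ d, ∃ H : ℕ → AffineSubspace ℝ (Fin d → ℝ),
    (∀ i, k ≤ i → i ≤ d →
      (H i : Set (Fin d → ℝ)).Nonempty ∧ Module.finrank ℝ (H i).direction = i) ∧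
    (∀ i, k ≤ i → i < d → H i ≤ H (i + 1)) ∧
    H d = ⊤ ∧
    ((∀ s ∈ A ∪ B, toR s ∈ H k → s ∈ A) ∨ (∀ s ∈ A ∪ B, toR s ∈ H k → s ∈ B)) ∧
    (∀ i, k < i → i ≤ d → Separates (H (i - 1)) (H i) A B)

/-- Every finite set of vertices of the cube `{0,1}^d` is integrally convex. -/
theorem cube_integrallyConvex {d : ℕ} (S : Finset (Fin d → ℤ))
    (hS : ∀ s ∈ S, ∀ i, s i = 0 ∨ s i = 1) : IntegrallyConvex (S : Set (Fin d → ℤ)) := by
  classical
  intro x hx
  have himg : toR '' (S : Set (Fin d → ℤ)) = ((S.image toR : Finset (Fin d → ℝ)) : Set _) := by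
    simp
  rw [himg, Finset.mem_convexHull'] at hx
  obtain ⟨w, hw0, hw1, hwx⟩ := hx
  set T := S.image toR with hT
  have hcoord : ∀ y ∈ T, ∀ i, y i = 0 ∨ y i = 1 := by
    intro y hy i
    rw [hT, Finset.mem_image] at hy
    obtain ⟨s, hs, rfl⟩ := hy
    rcases hS s hs i with h | h
    · left; simp [toR, h]
    · right; simp [toR, h]
  have hxi : ∀ i, x i = ∑ y ∈ T, w y * y i := by
    intro i
    rw [← hwx, Finset.sum_apply]
    simp
  have key : ∀ y ∈ T, 0 < w y → y ∈ toR '' ((S : Set (Fin d → ℤ)) ∩ nbhd x) := by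
    intro y hy hwy
    have hy' := hy
    rw [hT, Finset.mem_image] at hy'
    obtain ⟨s, hs, hsy⟩ := hy'
    refine ⟨s, ⟨hs, ?_⟩, hsy⟩
    intro i
    have hyi : y i = (s i : ℝ) := by rw [← hsy]; rfl
    rw [← hyi]
    have hsplit : x i = w y * y i + ∑ z ∈ T.erase y, w z * z i := by
      rw [hxi i, ← Finset.add_sum_erase T _ hy]
    have hsplit1 : (1 : ℝ) = w y + ∑ z ∈ T.erase y, w z := by
      rw [← hw1, ← Finset.add_sum_erase T _ hy]
    have hlow : 0 ≤ ∑ z ∈ T.erase y, w z * z i := by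
      apply Finset.sum_nonneg
      intro z hz
      have hzT := Finset.mem_of_mem_erase hz
      rcases hcoord z hzT i with h | h <;> rw [h] <;> simp [hw0 z hzT]
    have hup : ∑ z ∈ T.erase y, w z * z i ≤ ∑ z ∈ T.erase y, w z := by
      apply Finset.sum_le_sum
      intro z hz
      have hzT := Finset.mem_of_mem_erase hz
      rcases hcoord z hzT i with h | h <;> rw [h] <;> simp [hw0 z hzT]
    rw [abs_lt]
    rcases hcoord y hy i with h | h
    · rw [h] at hsplit ⊢
      constructor <;> nlinarith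
    · rw [h] at hsplit ⊢
      constructor <;> nlinarith
  have hsum : x = ∑ y ∈ T.filter (fun y => 0 < w y), w y • y := by
    rw [← hwx, Finset.sum_filter]
    apply Finset.sum_congr rfl
    intro y hy
    split_ifs with h
    · rfl
    · have : w y = 0 := le_antisymm (not_lt.mp h) (hw0 y hy)
      simp [this]
  have hone : ∑ y ∈ T.filter (fun y => 0 < w y), w y = 1 := by
    rw [← hw1, Finset.sum_filter]
    apply Finset.sum_congr rfl
    intro y hy
    split_ifs with h
    · rfl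
    · have : w y = 0 := le_antisymm (not_lt.mp h) (hw0 y hy)
      simp [this]
  have hmem : (∑ y ∈ T.filter (fun y => 0 < w y), w y • y) ∈
      convexHull ℝ (toR '' ((S : Set (Fin d → ℤ)) ∩ nbhd x)) := by
    refine (convex_convexHull ℝ _).sum_mem ?_ hone ?_
    · intro y hy
      exact (Finset.mem_filter.mp hy).2.le
    · intro y hy
      have hy' := Finset.mem_filter.mp hy
      exact subset_convexHull ℝ _ (key y hy'.1 hy'.2)
  rw [← hsum] at hmem
  exact hmem

/-- The three points of `A`. -/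
def av : Fin 3 → (Fin 4 → ℤ) := ![![0, 0, 0, 0], ![0, 1, 1, 1], ![1, 0, 1, 1]]

/-- The three points of `B`. -/
def bv : Fin 3 → (Fin 4 → ℤ) := ![![0, 0, 0, 1], ![0, 0, 1, 0], ![1, 1, 0, 0]]

/-- `A = {0000, 0111, 1011}`. -/
def setA : Finset (Fin 4 → ℤ) := Finset.univ.image av

/-- `B = {0001, 0010, 1100}`. -/
def setB : Finset (Fin 4 → ℤ) := Finset.univ.image bv

theorem para_idx (m : ℕ) (h1 : 1 ≤ m) (h4 : m ≤ 4) (a b : Fin m → Fin 3) :
    ∑ i, av (a i) ≠ ∑ i, bv (b i) := by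
  intro h
  -- count the indices
  have e0 := congrFun h 0
  have e1 := congrFun h 1
  have e2 := congrFun h 2
  have e3 := congrFun h 3
  simp only [Finset.sum_apply] at e0 e1 e2 e3
  have hb : ∀ j : Fin 3, bv j 0 + bv j 2 + bv j 3 = 1 := by decide
  have ha : ∀ j : Fin 3, av j 2 = av j 0 + av j 1 ∧ av j 3 = av j 0 + av j 1 := by decide
  have hbb : ∀ j : Fin 3, bv j 0 = bv j 1 := by decide
  have sb : ∑ i, bv (b i) 0 + ∑ i, bv (b i) 2 + ∑ i, bv (b i) 3 = m := by
    rw [← Finset.sum_add_distrib, ← Finset.sum_add_distrib]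
    simp [hb]
  have sa2 : ∑ i, av (a i) 2 = ∑ i, av (a i) 0 + ∑ i, av (a i) 1 := by
    rw [← Finset.sum_add_distrib]
    exact Finset.sum_congr rfl fun i _ => (ha (a i)).1
  have sa3 : ∑ i, av (a i) 3 = ∑ i, av (a i) 0 + ∑ i, av (a i) 1 := by
    rw [← Finset.sum_add_distrib]
    exact Finset.sum_congr rfl fun i _ => (ha (a i)).2
  have sbb : ∑ i, bv (b i) 0 = ∑ i, bv (b i) 1 :=
    Finset.sum_congr rfl fun i _ => hbb (b i)
  omega

theorem parallelogram : Parallelogram 4 (setA : Set (Fin 4 → ℤ)) (setB : Set (Fin 4 → ℤ)) := by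
  intro m h1 h4 a b ha hb
  have ha' : ∀ i, ∃ j : Fin 3, av j = a i := by
    intro i
    have := ha i
    simpa [setA] using this
  have hb' : ∀ i, ∃ j : Fin 3, bv j = b i := by
    intro i
    have := hb i
    simpa [setB] using this
  choose ja hja using ha'
  choose jb hjb using hb'
  have := para_idx m h1 h4 ja jb
  simpa [hja, hjb] using this

theorem disjointAB : Disjoint setA setB := by decide

theorem mem_setA (j : Fin 3) : av j ∈ setA := by simp [setA]

theorem mem_setB (j : Fin 3) : bv j ∈ setB := by simp [setB]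

theorem not_conditionH : ¬ ConditionH (setA : Set (Fin 4 → ℤ)) (setB : Set (Fin 4 → ℤ)) := by
  rintro ⟨k, hk, H, hdim, hmono, htop, hend, hsep⟩
  have hAB : ∀ s ∈ setA, s ∉ setB := fun s hs hs' => (Finset.disjoint_left.mp disjointAB) hs hs'
  rcases Nat.lt_or_ge k 4 with hk4 | hk4
  · -- the hyperplane `H 3` has to contain all of `S`
    have h := hsep 4 hk4 le_rfl
    obtain ⟨f, ⟨x0, -, hx0⟩, -, hpos, hneg⟩ := h
    have hin : ∀ s : Fin 4 → ℤ, toR s ∈ H 4 := by
      intro s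
      rw [htop]
      exact AffineSubspace.mem_top ℝ _ _
    have hA : ∀ j : Fin 3, 0 ≤ f (toR (av j)) := by
      intro j
      by_contra hlt
      have := hneg (av j) (Or.inl (mem_setA j)) (hin _) (not_le.mp hlt)
      exact hAB _ (mem_setA j) this
    have hB : ∀ j : Fin 3, f (toR (bv j)) ≤ 0 := by
      intro j
      by_contra hlt
      have := hpos (bv j) (Or.inr (mem_setB j)) (hin _) (not_le.mp hlt)
      exact hAB _ this (mem_setB j)
    -- write `f` in coordinates
    set g := f.linear with hg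
    have hf : ∀ x : Fin 4 → ℝ, f x = g x + f 0 := by
      intro x
      have := f.map_vadd (0 : Fin 4 → ℝ) x
      simpa using this
    have hgx : ∀ x : Fin 4 → ℝ, g x =
        x 0 * g (Pi.single 0 1) + x 1 * g (Pi.single 1 1) + x 2 * g (Pi.single 2 1)
          + x 3 * g (Pi.single 3 1) := by
      intro x
      have hx : x = x 0 • Pi.single (0 : Fin 4) (1 : ℝ) + x 1 • Pi.single (1 : Fin 4) (1 : ℝ)
          + x 2 • Pi.single (2 : Fin 4) (1 : ℝ) + x 3 • Pi.single (3 : Fin 4) (1 : ℝ) := by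
        ext i
        fin_cases i <;> simp
      conv_lhs => rw [hx]
      simp only [map_add, map_smul, smul_eq_mul]
    have A0 := hA 0
    have A1 := hA 1
    have A2 := hA 2
    have B0 := hB 0
    have B1 := hB 1
    have B2 := hB 2
    rw [hf, hgx] at A0 A1 A2 B0 B1 B2
    simp [toR, av, bv] at A0 A1 A2 B0 B1 B2
    apply hx0
    rw [hf, hgx]
    set g0 := g (Pi.single 0 1)
    set g1 := g (Pi.single 1 1)
    set g2 := g (Pi.single 2 1)
    set g3 := g (Pi.single 3 1)
    set c := f 0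
    have hc : c = 0 := by linarith
    have h3 : g3 = 0 := by linarith
    have h2 : g2 = 0 := by linarith
    have h1 : g1 = 0 := by linarith
    have h0 : g0 = 0 := by linarith
    rw [hc, h0, h1, h2, h3]
    ring
  · have hk' : k = 4 := le_antisymm hk hk4
    subst hk'
    have hin : ∀ s : Fin 4 → ℤ, toR s ∈ H 4 := by
      intro s
      rw [htop]
      exact AffineSubspace.mem_top ℝ _ _
    rcases hend with h | h
    · exact hAB _ (h _ (Or.inr (mem_setB 0)) (hin _)) (mem_setB 0)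
    · exact hAB _ (mem_setA 0) (h _ (Or.inl (mem_setA 0)) (hin _))

/-- **Disproof of Q1.**  In `ℤ^4` there is a finite integrally convex set `S = A ∪ B`
(`A`, `B` nonempty and disjoint) satisfying the `4`-parallelogram condition
but not Condition H; moreover `S` consists of six vertices of the cube `{0,1}^4`. -/
theorem result : ∃ S A B : Finset (Fin 4 → ℤ),
    A.Nonempty ∧ B.Nonempty ∧ Disjoint A B ∧ S = A ∪ B ∧ S.card = 6 ∧
    (∀ s ∈ S, ∀ i, s i = 0 ∨ s i = 1) ∧
    IntegrallyConvex (S : Set (Fin 4 → ℤ)) ∧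
    Parallelogram 4 (A : Set (Fin 4 → ℤ)) (B : Set (Fin 4 → ℤ)) ∧
    ¬ ConditionH (A : Set (Fin 4 → ℤ)) (B : Set (Fin 4 → ℤ)) := by
  have hcube : ∀ s ∈ setA ∪ setB, ∀ i, s i = 0 ∨ s i = 1 := by decide
  refine ⟨setA ∪ setB, setA, setB, ⟨_, mem_setA 0⟩, ⟨_, mem_setB 0⟩, disjointAB, rfl,
    by decide, hcube, cube_integrallyConvex _ hcube, parallelogram, not_conditionH⟩

end Pool.Agent.Results.MP_e13ffb_co.CubeCircuit
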